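import Mathlib
import Pool.Agent.Y437.LV.ND

set_option autoImplicit false

namespace Pool.Agent.Results.MP_4388f3_co.NearPlanes

open Filter Topology Pool.Agent.Y437.LV

/-- A finite bipartite graph `(V₁, V₂, E)` with labelled classes and `E ⊆ V₁ × V₂`. -/
structure BiGraph where
  V₁ : Type
  V₂ : Type
  [fin₁ : Fintype V₁]
  [fin₂ : Fintype V₂]
  E : V₁ → V₂ → Prop

attribute [instance] BiGraph.fin₁ BiGraph.fin₂

/-- The number of graph homomorphisms `H → G` mapping `V₁(H)` into `V₁(G)` and `V₂(H)` into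
`V₂(G)`. -/
noncomputable def hom (H G : BiGraph) : ℕ :=
  Nat.card {f : (H.V₁ → G.V₁) × (H.V₂ → G.V₂) // ∀ x y, H.E x y → G.E (f.1 x) (f.2 y)}

/-- The bipartite density `t_B(H,G)`. -/
noncomputable def tB (H G : BiGraph) : ℝ :=
  (hom H G : ℝ) /
    ((Fintype.card G.V₁ : ℝ) ^ Fintype.card H.V₁ * (Fintype.card G.V₂ : ℝ) ^ Fintype.card H.V₂)

/-- The class `𝓑₀`: the graph has at least one edge. -/
def HasEdge (H : BiGraph) : Prop := ∃ x y, H.E x y

/-- Log-convergence of a sequence of finite bipartite graphs (Szegedy). -/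
def LogConvergent (G : ℕ → BiGraph) : Prop :=
  ∀ H₁ H₂ : BiGraph, HasEdge H₁ → HasEdge H₂ →
    ∃ l : ℝ, Tendsto (fun n => (-Real.log (tB H₁ (G n))) / (-Real.log (tB H₂ (G n)))) atTop (𝓝 l)

/-- The incidence graph of a finite incidence structure: points as `V₁`, lines as `V₂`. -/
def incidenceGraph (P L : Type) [Membership P L] [Fintype P] [Fintype L] : BiGraph where
  V₁ := P
  V₂ := L
  E := fun p l => p ∈ l

/-- The two classes exchanged. -/
def BiGraph.swap (G : BiGraph) : BiGraph where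
  V₁ := G.V₂
  V₂ := G.V₁
  E := fun y x => G.E x y

/-- The degree of a vertex of `V₁(G)`. -/
noncomputable def BiGraph.deg (G : BiGraph) (x : G.V₁) : ℕ := Nat.card {y : G.V₂ // G.E x y}

/-- The number of common neighbours of two vertices of `V₁(G)`. -/
noncomputable def BiGraph.codeg (G : BiGraph) (x x' : G.V₁) : ℕ :=
  Nat.card {y : G.V₂ // G.E x y ∧ G.E x' y}

/-- `G` is a near plane of order `m` with factor `K`: `V₁(G)` is not empty and, in both classes,
all degrees lie between `m / K` and `K m`, and any two distinct vertices of the same class have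
at least one and at most `K` common neighbours. -/
structure NearPlane (K m : ℕ) (G : BiGraph) : Prop where
  nonempty : Nonempty G.V₁
  deg₁ : ∀ x, m ≤ K * G.deg x ∧ G.deg x ≤ K * m
  deg₂ : ∀ y, m ≤ K * G.swap.deg y ∧ G.swap.deg y ≤ K * m
  codeg₁ : ∀ x x', x ≠ x' → 1 ≤ G.codeg x x' ∧ G.codeg x x' ≤ K
  codeg₂ : ∀ y y', y ≠ y' → 1 ≤ G.swap.codeg y y' ∧ G.swap.codeg y y' ≤ K

/-! ### Translation -/

/-- symmetrised relation on the disjoint union -/
def sumRel {A B : Type} (E : A → B → Prop) : A ⊕ B → A ⊕ B → Prop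
  | Sum.inl x, Sum.inr y => E x y
  | Sum.inr y, Sum.inl x => E x y
  | _, _ => False

def toPat (H : BiGraph) : Pat where
  V := H.V₁ ⊕ H.V₂
  κ := Sum.isLeft
  R := sumRel H.E
  symm := by
    rintro (x | x) (y | y) h
    · exact h
    · exact h
    · exact h
    · exact h
  col_ne := by
    rintro (x | x) (y | y) h
    · exact h.elim
    · simp
    · simp
    · exact h.elim

section Plane

variable (G : BiGraph)

def nbL (p : G.V₁) : {y : G.V₁ ⊕ G.V₂ // sumRel G.E (Sum.inl p) y} ≃ {l : G.V₂ // G.E p l} where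
  toFun := fun y => match y with
    | ⟨Sum.inr l, h⟩ => ⟨l, h⟩
    | ⟨Sum.inl _, h⟩ => h.elim
  invFun := fun l => ⟨Sum.inr l.1, l.2⟩
  left_inv := by
    rintro ⟨(x | x), h⟩
    · exact h.elim
    · rfl
  right_inv := by
    rintro ⟨l, h⟩
    rfl

def nbR (l : G.V₂) : {y : G.V₁ ⊕ G.V₂ // sumRel G.E (Sum.inr l) y} ≃ {p : G.V₁ // G.E p l} where
  toFun := fun y => match y with
    | ⟨Sum.inl p, h⟩ => ⟨p, h⟩
    | ⟨Sum.inr _, h⟩ => h.elim
  invFun := fun p => ⟨Sum.inl p.1, p.2⟩
  left_inv := by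
    rintro ⟨(x | x), h⟩
    · rfl
    · exact h.elim
  right_inv := by
    rintro ⟨l, h⟩
    rfl

def cnL (p q : G.V₁) : {y : G.V₁ ⊕ G.V₂ // sumRel G.E (Sum.inl p) y ∧ sumRel G.E (Sum.inl q) y} ≃
    {l : G.V₂ // G.E p l ∧ G.E q l} where
  toFun := fun y => match y with
    | ⟨Sum.inr l, h⟩ => ⟨l, h⟩
    | ⟨Sum.inl _, h⟩ => h.1.elim
  invFun := fun l => ⟨Sum.inr l.1, l.2⟩
  left_inv := by
    rintro ⟨(x | x), h⟩
    · exact h.1.elim
    · rfl
  right_inv := by
    rintro ⟨l, h⟩
    rfl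

def cnR (p q : G.V₂) : {y : G.V₁ ⊕ G.V₂ // sumRel G.E (Sum.inr p) y ∧ sumRel G.E (Sum.inr q) y} ≃
    {l : G.V₁ // G.E l p ∧ G.E l q} where
  toFun := fun y => match y with
    | ⟨Sum.inl l, h⟩ => ⟨l, h⟩
    | ⟨Sum.inr _, h⟩ => h.1.elim
  invFun := fun l => ⟨Sum.inl l.1, l.2⟩
  left_inv := by
    rintro ⟨(x | x), h⟩
    · rfl
    · exact h.1.elim
  right_inv := by
    rintro ⟨l, h⟩
    rfl

def colL : {y : G.V₁ ⊕ G.V₂ // y.isLeft = true} ≃ G.V₁ where
  toFun := fun y => match y with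
    | ⟨Sum.inl p, _⟩ => p
  invFun := fun p => ⟨Sum.inl p, rfl⟩
  left_inv := by
    rintro ⟨(x | x), h⟩
    · rfl
    · exact absurd h (by simp)
  right_inv := by
    intro p
    rfl

def colR : {y : G.V₁ ⊕ G.V₂ // y.isLeft = false} ≃ G.V₂ where
  toFun := fun y => match y with
    | ⟨Sum.inr p, _⟩ => p
  invFun := fun p => ⟨Sum.inr p, rfl⟩
  left_inv := by
    rintro ⟨(x | x), h⟩
    · exact absurd h (by simp)
    · rfl
  right_inv := by
    intro p
    rfl

theorem NearPlane.pos {K m : ℕ} {G : BiGraph} (hG : NearPlane K m G) (hm : 1 ≤ m) : 1 ≤ K := by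
  obtain ⟨x⟩ := hG.nonempty
  have := (hG.deg₁ x).1
  rcases Nat.eq_zero_or_pos K with h | h
  · subst h; omega
  · exact h

theorem NearPlane.nonempty₂ {K m : ℕ} {G : BiGraph} (hG : NearPlane K m G) (hm : 1 ≤ m) :
    Nonempty G.V₂ := by
  obtain ⟨x⟩ := hG.nonempty
  have h1 := (hG.deg₁ x).1
  by_contra hne
  rw [not_nonempty_iff] at hne
  have h2 : G.deg x = 0 := by
    unfold BiGraph.deg
    exact Nat.card_of_isEmpty
  rw [h2] at h1
  omega

theorem NearPlane.size₁ {K m : ℕ} {G : BiGraph} (hG : NearPlane K m G) (hm : 1 ≤ m) :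
    Nat.card G.V₁ ≤ (2 * K ^ 4) * m ^ 2 ∧ m ^ 2 ≤ (2 * K ^ 4) * Nat.card G.V₁ := by
  obtain ⟨x⟩ := hG.nonempty
  exact class_size G.E K m hm x (fun x => (hG.deg₁ x).2) (fun x => (hG.deg₁ x).1)
    (fun y => (hG.deg₂ y).2) (fun y => (hG.deg₂ y).1) (fun x x' h => (hG.codeg₁ x x' h).1)
    (fun x x' h => (hG.codeg₁ x x' h).2)

theorem NearPlane.size₂ {K m : ℕ} {G : BiGraph} (hG : NearPlane K m G) (hm : 1 ≤ m) :
    Nat.card G.V₂ ≤ (2 * K ^ 4) * m ^ 2 ∧ m ^ 2 ≤ (2 * K ^ 4) * Nat.card G.V₂ := by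
  obtain ⟨y⟩ := hG.nonempty₂ hm
  exact class_size G.swap.E K m hm y (fun x => (hG.deg₂ x).2) (fun x => (hG.deg₂ x).1)
    (fun y => (hG.deg₁ y).2) (fun y => (hG.deg₁ y).1) (fun x x' h => (hG.codeg₂ x x' h).1)
    (fun x x' h => (hG.codeg₂ x x' h).2)

theorem K_le {K : ℕ} (hK : 1 ≤ K) : K ≤ 2 * K ^ 4 := by
  have h1 : K ^ 1 ≤ K ^ 4 := Nat.pow_le_pow_right hK (by norm_num)
  rw [pow_one] at h1
  omega

noncomputable def toNG (K m : ℕ) (hm : 1 ≤ m) (hG : NearPlane K m G) : NG where
  W := G.V₁ ⊕ G.V₂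
  col := Sum.isLeft
  Adj := sumRel G.E
  m := m
  K := 2 * K ^ 4
  hm := hm
  hK := (hG.pos hm).trans (K_le (hG.pos hm))
  symm := by
    rintro (x | x) (y | y) h
    · exact h
    · exact h
    · exact h
    · exact h
  col_ne := by
    rintro (x | x) (y | y) h
    · exact h.elim
    · simp
    · simp
    · exact h.elim
  deg_le := by
    rintro (p | l)
    · rw [Nat.card_congr (nbL G p)]
      exact ((hG.deg₁ p).2).trans (Nat.mul_le_mul_right _ (K_le (hG.pos hm)))
    · rw [Nat.card_congr (nbR G l)]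
      exact ((hG.deg₂ l).2).trans (Nat.mul_le_mul_right _ (K_le (hG.pos hm)))
  le_deg := by
    rintro (p | l)
    · rw [Nat.card_congr (nbL G p)]
      exact ((hG.deg₁ p).1).trans (Nat.mul_le_mul_right _ (K_le (hG.pos hm)))
    · rw [Nat.card_congr (nbR G l)]
      exact ((hG.deg₂ l).1).trans (Nat.mul_le_mul_right _ (K_le (hG.pos hm)))
  common := by
    rintro (x | x) (y | y) hne hcol
    · have hxy : x ≠ y := fun h => hne (h ▸ rfl)
      have h1 : 0 < Nat.card {l : G.V₂ // G.E x l ∧ G.E y l} := (hG.codeg₁ x y hxy).1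
      obtain ⟨⟨⟨z, hz⟩⟩, -⟩ := Nat.card_pos_iff.1 h1
      exact ⟨Sum.inr z, hz.1, hz.2⟩
    · exact absurd hcol (by simp)
    · exact absurd hcol (by simp)
    · have hxy : x ≠ y := fun h => hne (h ▸ rfl)
      have h1 : 0 < Nat.card {p : G.V₁ // G.E p x ∧ G.E p y} := (hG.codeg₂ x y hxy).1
      obtain ⟨⟨⟨z, hz⟩⟩, -⟩ := Nat.card_pos_iff.1 h1
      exact ⟨Sum.inl z, hz.1, hz.2⟩
  codeg_le := by
    rintro (x | x) (y | y) hne hcol
    · have hxy : x ≠ y := fun h => hne (h ▸ rfl)
      rw [Nat.card_congr (cnL G x y)]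
      exact ((hG.codeg₁ x y hxy).2).trans (K_le (hG.pos hm))
    · exact absurd hcol (by simp)
    · exact absurd hcol (by simp)
    · have hxy : x ≠ y := fun h => hne (h ▸ rfl)
      rw [Nat.card_congr (cnR G x y)]
      exact ((hG.codeg₂ x y hxy).2).trans (K_le (hG.pos hm))
  cnt_le := by
    rintro (b | b)
    · rw [Nat.card_congr (colR G)]
      exact (hG.size₂ hm).1
    · rw [Nat.card_congr (colL G)]
      exact (hG.size₁ hm).1
  le_cnt := by
    rintro (b | b)
    · rw [Nat.card_congr (colR G)]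
      exact (hG.size₂ hm).2
    · rw [Nat.card_congr (colL G)]
      exact (hG.size₁ hm).2

theorem hom_eq (K m : ℕ) (hm : 1 ≤ m) (hG : NearPlane K m G) (H : BiGraph) :
    hom H G = cnt (toPat H) (toNG G K m hm hG) := by
  classical
  unfold hom cnt
  rw [← Fintype.card_coe, ← Nat.card_eq_fintype_card]
  refine Nat.card_congr (Equiv.ofBijective
    (fun f => (⟨Sum.map f.1.1 f.1.2, ?_⟩ : {φ // φ ∈ homs (toPat H) (toNG G K m hm hG)}))
    ⟨?_, ?_⟩)
  · refine mem_homs.2 ⟨?_, ?_⟩
    · rintro (x | x)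
      · rfl
      · rfl
    · rintro (x | x) (y | y) hxy
      · exact hxy.elim
      · exact f.2 x y hxy
      · exact f.2 y x hxy
      · exact hxy.elim
  · rintro ⟨⟨f₁, f₂⟩, hf⟩ ⟨⟨g₁, g₂⟩, hg⟩ h
    have h1 := congrArg Subtype.val h
    simp only at h1
    apply Subtype.ext
    apply Prod.ext
    · funext x
      exact Sum.inl.inj (congrFun h1 (Sum.inl x))
    · funext x
      exact Sum.inr.inj (congrFun h1 (Sum.inr x))
  · rintro ⟨φ, hφ⟩
    rw [mem_homs] at hφ
    have h1 : ∀ x : H.V₁, ∃ p : G.V₁, φ (Sum.inl x) = Sum.inl p := by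
      intro x
      have h2 := hφ.1 (Sum.inl x)
      change (φ (Sum.inl x)).isLeft = true at h2
      rcases hx : φ (Sum.inl x) with p | l
      · exact ⟨p, rfl⟩
      · rw [hx] at h2; exact absurd h2 (by simp)
    have h2 : ∀ x : H.V₂, ∃ l : G.V₂, φ (Sum.inr x) = Sum.inr l := by
      intro x
      have h2 := hφ.1 (Sum.inr x)
      change (φ (Sum.inr x)).isLeft = false at h2
      rcases hx : φ (Sum.inr x) with p | l
      · rw [hx] at h2; exact absurd h2 (by simp)
      · exact ⟨l, rfl⟩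
    choose f₁ hf₁ using h1
    choose f₂ hf₂ using h2
    refine ⟨⟨(f₁, f₂), ?_⟩, ?_⟩
    · intro x y hxy
      have h3 := hφ.2 (Sum.inl x) (Sum.inr y) hxy
      rw [hf₁, hf₂] at h3
      exact h3
    · apply Subtype.ext
      funext x
      rcases x with x | x
      · exact (hf₁ x).symm
      · exact (hf₂ x).symm

end Plane

/-! ### Asymptotics -/

theorem log_lim (h m A : ℕ → ℕ) (e : ℕ) (hm : Tendsto m atTop atTop)
    (hA : Tendsto (fun n => Real.log (A n) / Real.log (m n)) atTop (𝓝 0))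
    (h1 : ∀ᶠ n in atTop, h n ≤ A n * m n ^ e) (h2 : ∀ᶠ n in atTop, m n ^ e ≤ A n * h n) :
    Tendsto (fun n => Real.log (h n) / Real.log (m n)) atTop (𝓝 (e : ℝ)) := by
  have hlo : Tendsto (fun n => (e : ℝ) - Real.log (A n) / Real.log (m n)) atTop (𝓝 (e : ℝ)) := by
    simpa using (tendsto_const_nhds (x := (e : ℝ))).sub hA
  have hhi : Tendsto (fun n => (e : ℝ) + Real.log (A n) / Real.log (m n)) atTop (𝓝 (e : ℝ)) := by
    simpa using (tendsto_const_nhds (x := (e : ℝ))).add hA
  have hev : ∀ᶠ n in atTop, 2 ≤ m n := hm.eventually_ge_atTop 2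
  refine tendsto_of_tendsto_of_tendsto_of_le_of_le' hlo hhi ?_ ?_
  · filter_upwards [hev, h2] with n hn h2
    have hmpos : (0 : ℝ) < m n := by exact_mod_cast (by omega : 0 < m n)
    have hlpos : 0 < Real.log (m n) := Real.log_pos (by exact_mod_cast (by omega : 1 < m n))
    have hpp : 0 < m n ^ e := pow_pos (by omega) _
    have hCh : 0 < A n * h n := lt_of_lt_of_le hpp h2
    have hC : 0 < A n := Nat.pos_of_mul_pos_right hCh
    have hh : 0 < h n := Nat.pos_of_mul_pos_left hCh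
    have key : (e : ℝ) * Real.log (m n) ≤ Real.log (A n) + Real.log (h n) := by
      rw [← Real.log_pow, ← Real.log_mul (by exact_mod_cast hC.ne') (by exact_mod_cast hh.ne')]
      apply Real.log_le_log
      · exact_mod_cast hpp
      · exact_mod_cast h2
    rw [sub_le_iff_le_add, ← add_div, le_div_iff₀ hlpos]
    linarith
  · filter_upwards [hev, h1, h2] with n hn h1 h2
    have hmpos : (0 : ℝ) < m n := by exact_mod_cast (by omega : 0 < m n)
    have hlpos : 0 < Real.log (m n) := Real.log_pos (by exact_mod_cast (by omega : 1 < m n))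
    have hpp : 0 < m n ^ e := pow_pos (by omega) _
    have hCh : 0 < A n * h n := lt_of_lt_of_le hpp h2
    have hC : 0 < A n := Nat.pos_of_mul_pos_right hCh
    have hh : 0 < h n := Nat.pos_of_mul_pos_left hCh
    have hC' : (0 : ℝ) < A n := by exact_mod_cast hC
    have key : Real.log (h n) ≤ Real.log (A n) + e * Real.log (m n) := by
      rw [← Real.log_pow, ← Real.log_mul hC'.ne' (by positivity)]
      apply Real.log_le_log
      · exact_mod_cast hh
      · exact_mod_cast h1
    rw [div_le_iff₀ hlpos, add_mul, div_mul_cancel₀ _ hlpos.ne']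
    linarith

/-- Polynomial factors in `K` are negligible. -/
theorem poly_lim (K m B : ℕ → ℕ) (C c : ℕ) (hm : Tendsto m atTop atTop)
    (hK1 : ∀ᶠ n in atTop, 1 ≤ K n)
    (hK : Tendsto (fun n => Real.log (K n) / Real.log (m n)) atTop (𝓝 0))
    (hB : ∀ᶠ n in atTop, B n ≤ C * K n ^ c) :
    Tendsto (fun n => Real.log (B n) / Real.log (m n)) atTop (𝓝 0) := by
  have hlogm : Tendsto (fun n => Real.log (m n)) atTop atTop :=
    Real.tendsto_log_atTop.comp (tendsto_natCast_atTop_atTop.comp hm)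
  have hlim : Tendsto (fun n => Real.log ((C + 1 : ℕ) : ℝ) / Real.log (m n) +
      c * (Real.log (K n) / Real.log (m n))) atTop (𝓝 0) := by
    have h1 : Tendsto (fun n => Real.log ((C + 1 : ℕ) : ℝ) / Real.log (m n)) atTop (𝓝 0) :=
      Filter.Tendsto.const_div_atTop hlogm _
    have h2 := h1.add (hK.const_mul (c : ℝ))
    simpa using h2
  have hev : ∀ᶠ n in atTop, 2 ≤ m n := hm.eventually_ge_atTop 2
  refine tendsto_of_tendsto_of_tendsto_of_le_of_le' tendsto_const_nhds hlim ?_ ?_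
  · filter_upwards [hev] with n hn
    have hlpos : 0 < Real.log (m n) := Real.log_pos (by exact_mod_cast (by omega : 1 < m n))
    exact div_nonneg (Real.log_natCast_nonneg _) hlpos.le
  · filter_upwards [hev, hK1, hB] with n hn h1 h2
    have hlpos : 0 < Real.log (m n) := Real.log_pos (by exact_mod_cast (by omega : 1 < m n))
    have hKpos : (0 : ℝ) < K n := by exact_mod_cast (by omega : 0 < K n)
    rw [mul_div, ← add_div]
    apply div_le_div_of_nonneg_right _ hlpos.le
    have h3 : B n + 1 ≤ (C + 1) * K n ^ c := by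
      have : 1 ≤ K n ^ c := Nat.one_le_pow _ _ h1
      rw [add_mul]
      omega
    have h4 : Real.log (B n) ≤ Real.log ((B n + 1 : ℕ) : ℝ) := by
      rcases Nat.eq_zero_or_pos (B n) with h | h
      · rw [h]; simp
      · apply Real.log_le_log
        · exact_mod_cast h
        · exact_mod_cast Nat.le_succ _
    refine h4.trans ?_
    have h5 : ((B n + 1 : ℕ) : ℝ) ≤ ((C + 1 : ℕ) : ℝ) * (K n : ℝ) ^ c := by exact_mod_cast h3
    refine (Real.log_le_log (by positivity) h5).trans (le_of_eq ?_)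
    rw [Real.log_mul (by positivity) (by positivity), Real.log_pow]

/-- The exponent of the number of homomorphisms. -/
noncomputable def expo (H : BiGraph) : ℕ := Classical.choose (good_cnt _ (toPat H) rfl)

theorem expo_spec (H : BiGraph) : ∃ A : NG → ℕ, PK A ∧ ∀ G : NG,
    cnt (toPat H) G ≤ A G * G.m ^ expo H ∧ G.m ^ expo H ≤ A G * cnt (toPat H) G :=
  Classical.choose_spec (good_cnt _ (toPat H) rfl)

/-- The exponent of the density. -/
noncomputable def dexp (H : BiGraph) : ℚ :=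
  2 * ((Fintype.card H.V₁ : ℚ) + Fintype.card H.V₂) - expo H

/-- Along near planes `- log t_B(H, G) / log m` converges to `dexp H`, which is positive if `H`
has an edge. -/
theorem main_lim (H : BiGraph) (K m : ℕ → ℕ) (G : ℕ → BiGraph) (hm : Tendsto m atTop atTop)
    (hm1 : ∀ n, 1 ≤ m n)
    (hK : Tendsto (fun n => Real.log (K n) / Real.log (m n)) atTop (𝓝 0))
    (hG : ∀ n, NearPlane (K n) (m n) (G n)) :
    (HasEdge H → (0 : ℝ) < dexp H) ∧
      Tendsto (fun n => (-Real.log (tB H (G n))) / Real.log (m n)) atTop (𝓝 (dexp H : ℝ)) := by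
  obtain ⟨A, ⟨C, c, hA⟩, hC⟩ := expo_spec H
  have hK1 : ∀ n, 1 ≤ K n := fun n => (hG n).pos (hm1 n)
  set N : ℕ → NG := fun n => toNG (G n) (K n) (m n) (hm1 n) (hG n) with hN
  have hhom : ∀ n, hom H (G n) = cnt (toPat H) (N n) :=
    fun n => hom_eq (G n) (K n) (m n) (hm1 n) (hG n) H
  have hNm : ∀ n, (N n).m = m n := fun n => rfl
  have hNK : ∀ n, (N n).K = 2 * K n ^ 4 := fun n => rfl
  have hK' : Tendsto (fun n => Real.log (2 * K n ^ 4 : ℕ) / Real.log (m n)) atTop (𝓝 0) :=
    poly_lim K m _ 2 4 hm (Eventually.of_forall hK1) hK (Eventually.of_forall fun n => le_rfl)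
  have hK1' : ∀ n, 1 ≤ 2 * K n ^ 4 := fun n => (hK1 n).trans (K_le (hK1 n))
  set a := Fintype.card H.V₁ with ha
  set b := Fintype.card H.V₂ with hb
  have l1 : Tendsto (fun n => Real.log (hom H (G n) : ℕ) / Real.log (m n)) atTop
      (𝓝 (expo H : ℝ)) := by
    refine log_lim _ m (fun n => A (N n)) (expo H) hm ?_ (Eventually.of_forall fun n => ?_)
      (Eventually.of_forall fun n => ?_)
    · refine poly_lim (fun n => 2 * K n ^ 4) m (fun n => A (N n)) C c hm
        (Eventually.of_forall hK1') hK' (Eventually.of_forall fun n => ?_)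
      exact hA (N n)
    · rw [hhom]; exact (hC (N n)).1
    · rw [hhom]; exact (hC (N n)).2
  have l2 : Tendsto (fun n => Real.log (Fintype.card (G n).V₁ : ℕ) / Real.log (m n)) atTop
      (𝓝 ((2 : ℕ) : ℝ)) := by
    refine log_lim _ m (fun n => 2 * K n ^ 4) 2 hm hK' (Eventually.of_forall fun n => ?_)
      (Eventually.of_forall fun n => ?_)
    · rw [← Nat.card_eq_fintype_card]; exact ((hG n).size₁ (hm1 n)).1
    · rw [← Nat.card_eq_fintype_card]; exact ((hG n).size₁ (hm1 n)).2
  have l3 : Tendsto (fun n => Real.log (Fintype.card (G n).V₂ : ℕ) / Real.log (m n)) atTop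
      (𝓝 ((2 : ℕ) : ℝ)) := by
    refine log_lim _ m (fun n => 2 * K n ^ 4) 2 hm hK' (Eventually.of_forall fun n => ?_)
      (Eventually.of_forall fun n => ?_)
    · rw [← Nat.card_eq_fintype_card]; exact ((hG n).size₂ (hm1 n)).1
    · rw [← Nat.card_eq_fintype_card]; exact ((hG n).size₂ (hm1 n)).2
  have hpos : ∀ n, 0 < hom H (G n) := by
    intro n
    have h1 := (hC (N n)).2
    rw [← hhom, hNm] at h1
    have h2 : 0 < m n ^ expo H := pow_pos (hm1 n) _
    exact Nat.pos_of_mul_pos_left (lt_of_lt_of_le h2 h1)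
  have hlog : ∀ n, -Real.log (tB H (G n)) =
      a * Real.log (Fintype.card (G n).V₁ : ℕ) + b * Real.log (Fintype.card (G n).V₂ : ℕ) -
        Real.log (hom H (G n) : ℕ) := by
    intro n
    haveI := (hG n).nonempty
    haveI := (hG n).nonempty₂ (hm1 n)
    have c1 : (0 : ℝ) < (Fintype.card (G n).V₁ : ℕ) := by exact_mod_cast Fintype.card_pos
    have c2 : (0 : ℝ) < (Fintype.card (G n).V₂ : ℕ) := by exact_mod_cast Fintype.card_pos
    have hh : (0 : ℝ) < (hom H (G n) : ℕ) := by exact_mod_cast hpos n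
    unfold tB
    rw [← ha, ← hb, Real.log_div hh.ne' (by positivity), Real.log_mul (by positivity)
      (by positivity), Real.log_pow, Real.log_pow]
    ring
  refine ⟨?_, ?_⟩
  · rintro ⟨x, y, hxy⟩
    have hcardV : Fintype.card (toPat H).V = a + b := Fintype.card_sum
    have hab : 1 ≤ a + b := by
      have : 0 < a := Fintype.card_pos_iff.2 ⟨x⟩
      omega
    have key : (expo H : ℝ) ≤ ((2 * (a + b) - 1 : ℕ) : ℝ) := by
      have hB : Tendsto (fun n => Real.log ((2 * (2 * K n ^ 4)) ^ (a + b) : ℕ) / Real.log (m n))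
          atTop (𝓝 0) := by
        refine poly_lim (fun n => 2 * K n ^ 4) m _ (2 ^ (a + b)) (a + b) hm
          (Eventually.of_forall hK1') hK' (Eventually.of_forall fun n => ?_)
        rw [mul_pow]
      have hB' : Tendsto (fun n => Real.log ((2 * (2 * K n ^ 4)) ^ (a + b) : ℕ) / Real.log (m n)
          + ((2 * (a + b) - 1 : ℕ) : ℝ)) atTop (𝓝 ((2 * (a + b) - 1 : ℕ) : ℝ)) := by
        simpa using hB.add_const ((2 * (a + b) - 1 : ℕ) : ℝ)
      refine le_of_tendsto_of_tendsto l1 hB' ?_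
      filter_upwards [hm.eventually_ge_atTop 2] with n hn
      have hlpos : 0 < Real.log (m n) := Real.log_pos (by exact_mod_cast (by omega : 1 < m n))
      have h2 := edge_bound (toPat H) (Sum.inl x) (Sum.inr y) hxy (N n)
      rw [hcardV, ← hhom, hNm, hNK] at h2
      have h3 : 2 * K n ^ 4 * m n * (2 * (2 * K n ^ 4 * m n ^ 2)) ^ (a + b - 1) ≤
          (2 * (2 * K n ^ 4)) ^ (a + b) * m n ^ (2 * (a + b) - 1) := by
        obtain ⟨t, ht⟩ : ∃ t, a + b = t + 1 := ⟨a + b - 1, by omega⟩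
        have e1 : 2 * (a + b) - 1 = 2 * t + 1 := by omega
        have e2 : a + b - 1 = t := by omega
        rw [e1, e2, ht]
        generalize 2 * K n ^ 4 = k
        calc k * m n * (2 * (k * m n ^ 2)) ^ t = (k * (2 * k) ^ t) * m n ^ (2 * t + 1) := by
              rw [show 2 * (k * m n ^ 2) = (2 * k) * m n ^ 2 by ring, mul_pow, ← pow_mul]
              ring
          _ ≤ ((2 * k) ^ (t + 1)) * m n ^ (2 * t + 1) := by
              apply Nat.mul_le_mul_right
              rw [pow_succ, mul_comm]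
              apply Nat.mul_le_mul_left
              omega
      have h4 := h2.trans h3
      rw [div_le_iff₀ hlpos, add_mul, div_mul_cancel₀ _ hlpos.ne', ← Real.log_pow,
        ← Real.log_mul]
      · apply Real.log_le_log
        · exact_mod_cast hpos n
        · exact_mod_cast h4
      · have : 0 < (2 * (2 * K n ^ 4)) ^ (a + b) := pow_pos (by have := hK1' n; omega) _
        exact_mod_cast this.ne'
      · have : 0 < m n ^ (2 * (a + b) - 1) := pow_pos (hm1 n) _
        exact_mod_cast this.ne'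
    have key' : expo H ≤ 2 * (a + b) - 1 := by exact_mod_cast key
    have key2 : (expo H : ℝ) < 2 * ((a : ℝ) + b) := by
      have : expo H < 2 * (a + b) := by omega
      exact_mod_cast this
    unfold dexp
    push_cast
    linarith
  · have h3 : Tendsto (fun n => a * (Real.log (Fintype.card (G n).V₁ : ℕ) / Real.log (m n)) +
        b * (Real.log (Fintype.card (G n).V₂ : ℕ) / Real.log (m n)) -
        Real.log (hom H (G n) : ℕ) / Real.log (m n)) atTop
        (𝓝 (a * ((2 : ℕ) : ℝ) + b * ((2 : ℕ) : ℝ) - expo H)) :=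
      ((l2.const_mul (a : ℝ)).add (l3.const_mul (b : ℝ))).sub l1
    have h4 : (dexp H : ℝ) = a * ((2 : ℕ) : ℝ) + b * ((2 : ℕ) : ℝ) - expo H := by
      unfold dexp
      push_cast
      ring
    rw [h4]
    refine h3.congr (fun n => ?_)
    rw [hlog n]
    ring

/-- The ratio of two densities along near planes. -/
theorem ratio_lim (K m : ℕ → ℕ) (G : ℕ → BiGraph) (hm : Tendsto m atTop atTop)
    (hK : Tendsto (fun n => Real.log (K n) / Real.log (m n)) atTop (𝓝 0))
    (hG : ∀ᶠ n in atTop, NearPlane (K n) (m n) (G n)) (H₁ H₂ : BiGraph) (he₂ : HasEdge H₂) :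
    Tendsto (fun n => (-Real.log (tB H₁ (G n))) / (-Real.log (tB H₂ (G n)))) atTop
      (𝓝 ((dexp H₁ / dexp H₂ : ℚ) : ℝ)) := by
  obtain ⟨n₀, hn₀⟩ := eventually_atTop.1 (hG.and (hm.eventually_ge_atTop 2))
  rw [← tendsto_add_atTop_iff_nat n₀]
  have hm' : Tendsto (fun n => m (n + n₀)) atTop atTop := (tendsto_add_atTop_iff_nat n₀).2 hm
  have hK' : Tendsto (fun n => Real.log (K (n + n₀)) / Real.log (m (n + n₀))) atTop (𝓝 0) :=
    (tendsto_add_atTop_iff_nat (f := fun n => Real.log (K n) / Real.log (m n)) n₀).2 hK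
  have h2 : ∀ n, 2 ≤ m (n + n₀) := fun n => (hn₀ (n + n₀) (Nat.le_add_left _ _)).2
  obtain ⟨-, h₁⟩ := main_lim H₁ (fun n => K (n + n₀)) (fun n => m (n + n₀))
    (fun n => G (n + n₀)) hm' (fun n => by have := h2 n; omega) hK'
    (fun n => (hn₀ (n + n₀) (Nat.le_add_left _ _)).1)
  obtain ⟨hd₂, h₂⟩ := main_lim H₂ (fun n => K (n + n₀)) (fun n => m (n + n₀))
    (fun n => G (n + n₀)) hm' (fun n => by have := h2 n; omega) hK'
    (fun n => (hn₀ (n + n₀) (Nat.le_add_left _ _)).1)
  rw [Rat.cast_div]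
  refine (h₁.div h₂ (hd₂ he₂).ne').congr (fun n => ?_)
  have hlpos : 0 < Real.log (m (n + n₀)) :=
    Real.log_pos (by exact_mod_cast (by have := h2 n; omega : 1 < m (n + n₀)))
  simp only [Pi.div_apply]
  rw [div_div_div_cancel_right₀ hlpos.ne']

open Configuration in
/-- Incidence graphs of projective planes are near planes. -/
theorem plane_near (P L : Type) [Membership P L] [Fintype P] [Fintype L]
    [Configuration.ProjectivePlane P L] :
    NearPlane 2 (Configuration.ProjectivePlane.order P L) (incidenceGraph P L) := by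
  have ho := ProjectivePlane.one_lt_order P L
  have d1 : ∀ p : P, (incidenceGraph P L).deg p = ProjectivePlane.order P L + 1 :=
    fun p => ProjectivePlane.lineCount_eq L p
  have d2 : ∀ l : L, (incidenceGraph P L).swap.deg l = ProjectivePlane.order P L + 1 :=
    fun l => ProjectivePlane.pointCount_eq P l
  have e1 : ∀ x y : P, x ≠ y → (incidenceGraph P L).codeg x y = 1 := by
    intro x y hxy
    unfold BiGraph.codeg
    rw [Nat.card_eq_one_iff_unique]
    refine ⟨⟨?_⟩, ⟨⟨HasLines.mkLine (L := L) hxy, HasLines.mkLine_ax hxy⟩⟩⟩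
    rintro ⟨l, h1, h2⟩ ⟨l', h1', h2'⟩
    apply Subtype.ext
    exact (Nondegenerate.eq_or_eq (P := P) (L := L) h1 h2 h1' h2').resolve_left hxy
  have e2 : ∀ x y : L, x ≠ y → (incidenceGraph P L).swap.codeg x y = 1 := by
    intro x y hxy
    unfold BiGraph.codeg
    rw [Nat.card_eq_one_iff_unique]
    refine ⟨⟨?_⟩, ⟨⟨HasPoints.mkPoint (P := P) hxy, HasPoints.mkPoint_ax hxy⟩⟩⟩
    rintro ⟨p, h1, h2⟩ ⟨p', h1', h2'⟩
    apply Subtype.ext
    exact (Nondegenerate.eq_or_eq (P := P) (L := L) h1 h1' h2 h2').resolve_right hxy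
  refine ⟨?_, fun p => ?_, fun l => ?_, fun x x' h => ?_, fun x x' h => ?_⟩
  · have h1 : 0 < Fintype.card P := by
      rw [ProjectivePlane.card_points P L]
      omega
    exact Fintype.card_pos_iff.1 h1
  · rw [d1]; omega
  · rw [d2]; omega
  · rw [e1 x x' h]; omega
  · rw [e2 x x' h]; omega

/-- **Log-limits of near planes.** There are rational numbers `ℓ(H₁, H₂)` such that

(1) whenever `G n` is a near plane of order `m n` with factor `K n` for all large `n` (degrees
between `m / K` and `K m`, any two distinct vertices of the same class with at least one and at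
most `K` common neighbours), `m n → ∞` and `log (K n) / log (m n) → 0`, the ratios of
the logarithms of the densities of `H₁` and `H₂` in `G n` converge to `ℓ(H₁, H₂)`; in particular
`(G n)` is log-convergent;

(2) the same for the incidence graphs of arbitrary finite projective planes whose orders tend to
infinity (this is Q1), with the same limit `ℓ`;

(3) the same, again with the same limit, for incidence graphs of symmetric designs: all degrees
equal to `k n → ∞`, any two distinct vertices of the same class with exactly `lam n ≥ 1` common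
neighbours, and `log (lam n) / log (k n) → 0`. -/
theorem result : ∃ ℓ : BiGraph → BiGraph → ℚ,
    (∀ (K m : ℕ → ℕ) (G : ℕ → BiGraph), Tendsto m atTop atTop →
      Tendsto (fun n => Real.log (K n) / Real.log (m n)) atTop (𝓝 0) →
      (∀ᶠ n in atTop, NearPlane (K n) (m n) (G n)) →
      LogConvergent G ∧ ∀ H₁ H₂ : BiGraph, HasEdge H₁ → HasEdge H₂ →
        Tendsto (fun n => (-Real.log (tB H₁ (G n))) / (-Real.log (tB H₂ (G n)))) atTop
          (𝓝 (ℓ H₁ H₂ : ℝ))) ∧
    (∀ (P L : ℕ → Type) [∀ n, Membership (P n) (L n)] [∀ n, Fintype (P n)] [∀ n, Fintype (L n)]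
      [∀ n, Configuration.ProjectivePlane (P n) (L n)],
      Tendsto (fun n => Configuration.ProjectivePlane.order (P n) (L n)) atTop atTop →
      LogConvergent (fun n => incidenceGraph (P n) (L n)) ∧
      ∀ H₁ H₂ : BiGraph, HasEdge H₁ → HasEdge H₂ →
        Tendsto (fun n => (-Real.log (tB H₁ (incidenceGraph (P n) (L n)))) /
          (-Real.log (tB H₂ (incidenceGraph (P n) (L n))))) atTop (𝓝 (ℓ H₁ H₂ : ℝ))) ∧
    (∀ (k lam : ℕ → ℕ) (G : ℕ → BiGraph), Tendsto k atTop atTop → (∀ n, 1 ≤ lam n) →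
      Tendsto (fun n => Real.log (lam n) / Real.log (k n)) atTop (𝓝 0) →
      (∀ n, Nonempty (G n).V₁) → (∀ n x, (G n).deg x = k n) → (∀ n y, (G n).swap.deg y = k n) →
      (∀ n x x', x ≠ x' → (G n).codeg x x' = lam n) →
      (∀ n y y', y ≠ y' → (G n).swap.codeg y y' = lam n) →
      LogConvergent G ∧ ∀ H₁ H₂ : BiGraph, HasEdge H₁ → HasEdge H₂ →
        Tendsto (fun n => (-Real.log (tB H₁ (G n))) / (-Real.log (tB H₂ (G n)))) atTop
          (𝓝 (ℓ H₁ H₂ : ℝ))) := by
  refine ⟨fun H₁ H₂ => dexp H₁ / dexp H₂, ?_, ?_, ?_⟩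
  · intro K m G hm hK hG
    exact ⟨fun H₁ H₂ _ h₂ => ⟨_, ratio_lim K m G hm hK hG H₁ H₂ h₂⟩,
      fun H₁ H₂ _ h₂ => ratio_lim K m G hm hK hG H₁ H₂ h₂⟩
  · intro P L _ _ _ _ h
    have hlogm : Tendsto (fun n => Real.log (Configuration.ProjectivePlane.order (P n) (L n)))
        atTop atTop := Real.tendsto_log_atTop.comp (tendsto_natCast_atTop_atTop.comp h)
    have hK : Tendsto (fun n => Real.log ((2 : ℕ) : ℝ) /
        Real.log (Configuration.ProjectivePlane.order (P n) (L n))) atTop (𝓝 0) :=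
      Filter.Tendsto.const_div_atTop hlogm _
    have key : ∀ H₁ H₂ : BiGraph, HasEdge H₂ →
        Tendsto (fun n => (-Real.log (tB H₁ (incidenceGraph (P n) (L n)))) /
          (-Real.log (tB H₂ (incidenceGraph (P n) (L n))))) atTop
          (𝓝 ((dexp H₁ / dexp H₂ : ℚ) : ℝ)) := fun H₁ H₂ h₂ =>
      ratio_lim (fun _ => 2) (fun n => Configuration.ProjectivePlane.order (P n) (L n))
        (fun n => incidenceGraph (P n) (L n)) h hK
        (Eventually.of_forall fun n => plane_near (P n) (L n)) H₁ H₂ h₂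
    exact ⟨fun H₁ H₂ _ h₂ => ⟨_, key H₁ H₂ h₂⟩, fun H₁ H₂ _ h₂ => key H₁ H₂ h₂⟩
  · intro k lam G hk hl hlk hne hd hd' hc hc'
    have hG : ∀ n, NearPlane (lam n) (k n) (G n) := by
      intro n
      have h1 : k n ≤ lam n * k n := Nat.le_mul_of_pos_left _ (hl n)
      exact ⟨hne n, fun x => by rw [hd]; exact ⟨h1, h1⟩, fun x => by rw [hd']; exact ⟨h1, h1⟩,
        fun x x' h => by rw [hc n x x' h]; exact ⟨hl n, le_rfl⟩,
        fun x x' h => by rw [hc' n x x' h]; exact ⟨hl n, le_rfl⟩⟩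
    exact ⟨fun H₁ H₂ _ h₂ => ⟨_, ratio_lim lam k G hk hlk (Eventually.of_forall hG) H₁ H₂ h₂⟩,
      fun H₁ H₂ _ h₂ => ratio_lim lam k G hk hlk (Eventually.of_forall hG) H₁ H₂ h₂⟩

end Pool.Agent.Results.MP_4388f3_co.NearPlanes
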